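import Pool.Agent.U213.WM.Main

/-!
# Over `ℚ`: three-term systems with coefficients `1`; descent to `ℚ`
-/

set_option autoImplicit false

open CategoryTheory AlgebraicGeometry MvPolynomial Pool.Agent.Y116.UV Pool.Agent.Z125.UN
  Pool.Agent.Q282.UZ Pool.Agent.U738.BN Pool.Agent.U213.BP
open Pool.Agent.U213.TB (Sparse sparse_iff)

namespace Pool.Agent.U213.WM

universe u v

lemma closure_rat : Subfield.closure (∅ : Set ℚ) = ⊤ := by
  rw [eq_top_iff]
  intro x _
  rw [← Rat.num_div_den x]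
  exact div_mem (intCast_mem _ _) (natCast_mem _ _)

/-- Over `ℚ` every algebra of finite type has a presentation by sums of at most three monomials. -/
theorem short_rat : ShortPresents ℚ := by
  intro A _ _ _
  obtain ⟨n, φ, G, hs, hK, hc⟩ := presentsQ closure_rat A
  refine ⟨n, φ, G, hs, hK, fun g hg => ⟨g.support, (hc g hg).1, ?_⟩⟩
  have h1 : g = ∑ m ∈ g.support, monomial m (coeff m g) := (support_sum_monomial_coeff g).symm
  have h2 : ∑ m ∈ g.support, monomial m (coeff m g) = ms ℚ g.support :=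
    Finset.sum_congr rfl fun m hm => by
      rw [((hc g hg).2 m hm).resolve_right fun h => h]
  rw [h2] at h1
  exact h1

section

variable {E : Type u} [Field E] [CharZero E] {p : ℕ} (hp : 1 < p)

section rat

variable {W : Type} [Group W] {ν : W → ℤ} (T : Theory.{u, v} ℚ E p W ν)

include hp

theorem sys_rat (w : ℤ) : (∀ X : Sch ℚ, FT True X → T.MWw w X) ↔ T.Sys w :=
  three_iff short_rat (clo_w T hp w)

theorem hyps_rat : (∀ X : Sch ℚ, FT True X → T.MW X) ↔ T.Hyps :=
  sparse_iff short_rat (bnd T hp)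

end rat

section descent

variable {k : Type} [Field k] {W W₀ : Type} [Group W] [Group W₀] {ν : W → ℤ} {ν₀ : W₀ → ℤ}
  {T : Theory.{u, v} k E p W ν} {T₀ : Theory.{u, v} ℚ E p W₀ ν₀}

include hp

theorem descend (h : Descends T T₀) (w : ℤ) (h₀ : ∀ X : Sch ℚ, FT True X → T₀.MWw w X) (X : Sch k)
    (hX : FT True X) : T.MWw w X := by
  obtain ⟨φ, hφ, H⟩ := h
  obtain ⟨X₀, hX₀, H⟩ := H X hX
  intro n
  obtain ⟨e, he, hf⟩ := H n w
  exact WD.mw_factor hp hf (WD.mw_res hp φ hφ he (h₀ X₀ hX₀ n))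

end descent

end

end Pool.Agent.U213.WM
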