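import Pool.Agent.U213.WM.Fil
import Pool.Agent.Y116.UV.Defs
import Pool.Agent.U213.TB.Few

/-!
# The weight quotients of `ℓ`-adic cohomology with compact supports over a `p`-adic field

`k` is a field of characteristic zero, embedded in a finite extension `K` of `ℚ_p`, `W` is the Weil group
of `K` with its degree `ν : W → ℤ`, and `E = ℚ_ℓ`. For a separated scheme `X` of finite type over `k` the
theory gives the graded pieces `gr^W_w H^n_c(X_K̄, ℚ_ℓ)` of the weight filtration (which is defined by
means of a finitely generated field of definition of `X`), with the action of `W` and the monodromy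
operator. For a smooth proper `X` the only weight of `H^n` is `w = n`.
-/

set_option autoImplicit false

open CategoryTheory AlgebraicGeometry Module Pool.Agent.Y116.UV Pool.Agent.Q282.UZ
open Pool.Agent.U213.TB (Sparse)

namespace Pool.Agent.U213.WM

universe u v

/-- The sequence `... → U n → X n → Z n → U (n + 1) → ...` is exact for suitable morphisms. -/
def LongExact {E : Type u} [Field E] [CharZero E] {p : ℕ} {W : Type} [Group W] {ν : W → ℤ}
    (U X Z : ℤ → WD.{u, v} E p W ν) : Prop :=
  ∃ (a : ∀ n, WD.Hom (U n) (X n)) (b : ∀ n, WD.Hom (X n) (Z n)) (d : ∀ n, WD.Hom (Z n) (U (n + 1))),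
    (∀ n, Function.Exact (a n).f (b n).f) ∧ (∀ n, Function.Exact (b n).f (d n).f) ∧
    ∀ n, Function.Exact (d n).f (a (n + 1)).f

/-- The image of the open immersion `j` is the complement of `f = 0` in `Spec A`. -/
def IsCompl {R A : Type} [CommRing R] [CommRing A] [Algebra R A] {m : ℕ} (f : Fin m → A) {U : Sch R}
    (j : U ⟶ aff R A) : Prop :=
  IsOpenImmersion j.left ∧ Set.range j.left = {x : PrimeSpectrum A | ∃ l, f l ∉ x.asIdeal}

/-- The spaces `H n w X = gr^W_w H^n_c(X_K̄, ℚ_ℓ)` and the properties which are used. -/
structure Theory (k : Type) [Field k] (E : Type u) [Field E] [CharZero E] (p : ℕ) (W : Type) [Group W]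
    (ν : W → ℤ) where
  /-- the weight quotient of weight `w` of the cohomology of degree `n` -/
  H : ℤ → ℤ → Sch k → WD.{u, v} E p W ν
  /-- isomorphic schemes have isomorphic cohomology -/
  iso : ∀ (n w : ℤ) (X Y : Sch k), FT True X → Nonempty (X ≅ Y) → WD.IsIso (H n w X) (H n w Y)
  /-- the cohomology of the empty scheme is zero -/
  empty : ∀ (n w : ℤ) (X : Sch k), IsEmpty X.left → Subsingleton (H n w X).V
  /-- the sequence of a closed subscheme `Z` of `X` with open complement `U`; `gr^W_w` is exact -/
  sequence : ∀ (w : ℤ) {Z X U : Sch k} (i : Z ⟶ X) (j : U ⟶ X), FT True X → IsTriple i j →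
    LongExact (fun n => H n w U) (fun n => H n w X) (fun n => H n w Z)
  /-- the cohomology of the point -/
  point : (∀ n w : ℤ, (n ≠ 0 ∨ w ≠ 0) → Subsingleton (H n w (aff k k)).V) ∧
    ∀ g x, (H 0 0 (aff k k)).ρ g x = x
  /-- Jouanolou's scheme `∑ f_l w_l = 1` in `m + 1` variables is an affine bundle of rank `m` over the
  complement `U` of `f = 0` in `Spec A`: its `H^(n + 2m)_c` is `H^n_c(U)(-m)` -/
  bundle : ∀ (n w : ℤ) (A : Type) [CommRing A] [Algebra k A] [Algebra.FiniteType k A] (m : ℕ)
    (f : Fin (m + 1) → A) (U : Sch k) (o : U ⟶ aff k A), IsCompl f o →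
    WD.IsTwist (m : ℤ) (H n w U) (H (n + 2 * m) (w + 2 * m) (aff k (Jou f)))
  /-- `H^n_c(X)` is a direct factor of `H^(n + 1)_c(X × 𝔾_m)` -/
  torus : ∀ (n w : ℤ) (A : Type) [CommRing A] [Algebra k A] [Algebra.FiniteType k A],
    WD.IsFactor (H n w (aff k A)) (H (n + 1) w (aff k (LaurentPolynomial A)))

namespace Theory

variable {k : Type} [Field k] {E : Type u} [Field E] [CharZero E] {p : ℕ} {W : Type} [Group W]
  {ν : W → ℤ} (T : Theory.{u, v} k E p W ν)

/-- The monodromy-weight assertion for the quotients of weight `w` of all `H^n_c(X)`. -/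
def MWw (w : ℤ) (X : Sch k) : Prop := ∀ n : ℤ, (T.H n w X).MW w

/-- The monodromy-weight assertion for all weight quotients of all `H^n_c(X)`. -/
def MW (X : Sch k) : Prop := ∀ w n : ℤ, (T.H n w X).MW w

/-- The monodromy-weight conjecture for `H^m(X)`, `X` smooth and proper. -/
def Q1 (m : ℤ) (X : Sch k) : Prop := (T.H m m X).MW m

end Theory

section rat

variable {E : Type u} [Field E] [CharZero E] {p : ℕ} {W : Type} [Group W] {ν : W → ℤ}
  (T : Theory.{u, v} ℚ E p W ν)

/-- The monodromy-weight assertion in the weight `w` for all systems of equations over `ℚ` each of which is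
a sum of at most three monomials `x_i y_j` (with coefficient `1`). -/
def Theory.Sys (w : ℤ) : Prop :=
  ∀ (a b c : ℕ) (F : Fin c → Finset (Fin a × Fin b)), (∀ l, (F l).card ≤ 3) → T.MWw w (sysS ℚ F)

/-- The monodromy-weight assertion for the smooth affine hypersurfaces `∑_{(i, j, k) ∈ F} x_i y_j z_k = 1`
over `ℚ`, for all finite sets `F` of triples such that every variable `x_i` occurs in at most three
monomials. -/
def Theory.Hyps : Prop :=
  ∀ (a b c : ℕ) (F : Finset (Fin a × Fin b × Fin c)), Sparse F → T.MW (tripS ℚ F)

end rat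

/-- `C` is a class of schemes over `k` like the class of the smooth projective (or proper) schemes: its
members are separated of finite type; the only weight of `H^n` is `n` (purity, Deligne); the
monodromy-weight conjecture is true for the members of dimension zero; and (Hironaka) for every integral
affine scheme `Spec A` of finite type and dimension at most `d` there are a
nonempty open subscheme `Spec A[1/w]`, a member `Y` of `C` of dimension at most `d`, and an open
subscheme `V` of `Y` whose complement has dimension less than `d`, such that the cohomology of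
`Spec A[1/w]` is a direct factor of the one of `V` (with resolution of singularities they are isomorphic;
an alteration is also sufficient). -/
structure IsProjClass {k : Type} [Field k] {E : Type u} [Field E] [CharZero E] {p : ℕ} {W : Type}
    [Group W] {ν : W → ℤ} (T : Theory.{u, v} k E p W ν) (C : Sch k → Prop) : Prop where
  ft : ∀ X, C X → FT True X
  pure : ∀ X, C X → ∀ n w : ℤ, n ≠ w → Subsingleton (T.H n w X).V
  points : ∀ X, C X → topologicalKrullDim X.left ≤ 0 → ∀ m, T.Q1 m X
  resolution : ∀ (d : ℕ) (A : Type) [CommRing A] [IsDomain A] [Algebra k A] [Algebra.FiniteType k A],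
    ringKrullDim A ≤ d → ∃ (a : A) (Z Y V : Sch k) (i : Z ⟶ Y) (o : V ⟶ Y), a ≠ 0 ∧ IsTriple i o ∧
      C Y ∧ topologicalKrullDim Y.left ≤ d ∧ topologicalKrullDim Z.left < d ∧
      ∀ n w : ℤ, WD.IsFactor (T.H n w (aff k (Localization.Away a))) (T.H n w V)

/-- The restriction of a representation of the Weil group of `ℚ_p` to the Weil group of `K`; the
monodromy operator is multiplied by a number `e` (the ramification index of `K`). -/
def WD.res {E : Type u} [Field E] [CharZero E] {p : ℕ} {W W₀ : Type} [Group W] [Group W₀] {ν : W → ℤ}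
    {ν₀ : W₀ → ℤ} (φ : W →* W₀) (hφ : ∀ g, ν₀ (φ g) = ν g) (e : E) (A : WD.{u, v} E p W₀ ν₀) :
    WD.{u, v} E p W ν where
  V := A.V
  finite := A.finite
  ρ := A.ρ.comp φ
  N := e • A.N
  nilpotent := by
    obtain ⟨n, hn⟩ := A.nilpotent
    exact ⟨n, by rw [smul_pow, hn, smul_zero]⟩
  comm g x := by
    rw [LinearMap.smul_apply, LinearMap.smul_apply, MonoidHom.comp_apply, A.comm, hφ, map_smul,
      smul_comm]

/-- The theory `T` over the field `k` (a number field with a place above `p`, or a finite extension `K`
of `ℚ_p`) descends to the theory `T₀` over `ℚ` (with the place `p`): the cohomology of every scheme `X`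
over `k` is a direct factor of the restriction of the cohomology of a scheme `X₀` over `ℚ`. If `k` is a
number field, then `X₀` is the scheme `X` over `ℚ`. If `k = K`, then `X` is in a family over
`K ∩ ℚ-bar` and its cohomology is isomorphic to the one of a near member of the family, which is defined
over a number field (Kisin's theorem of local constancy). -/
def Descends {k : Type} [Field k] {E : Type u} [Field E] [CharZero E] {p : ℕ} {W W₀ : Type} [Group W]
    [Group W₀] {ν : W → ℤ} {ν₀ : W₀ → ℤ} (T : Theory.{u, v} k E p W ν)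
    (T₀ : Theory.{u, v} ℚ E p W₀ ν₀) : Prop :=
  ∃ (φ : W →* W₀) (hφ : ∀ g, ν₀ (φ g) = ν g), ∀ X : Sch k, FT True X →
    ∃ X₀ : Sch ℚ, FT True X₀ ∧ ∀ n w : ℤ, ∃ e : E, e ≠ 0 ∧
      WD.IsFactor (T.H n w X) (WD.res φ hφ e (T₀.H n w X₀))

end Pool.Agent.U213.WM
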