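import Pool.Agent.U213.WM.Lin

/-!
# The monodromy filtration and the weight spaces
-/

set_option autoImplicit false

open Module Polynomial

namespace Pool.Agent.U213.WM.WD

universe u v

variable {E : Type u} [Field E] [CharZero E] {p : ℕ} {W : Type} [Group W] {ν : W → ℤ}
  {A B : WD.{u, v} E p W ν} {g : W} {m : ℤ}

/-- one polynomial for the whole space -/
lemma exists_poly (hA : A.Mixed g) :
    ∃ P : E[X], HasWeights ((p : ℝ) ^ ν g) Set.univ P ∧ ∀ x, aeval (A.ρ g) P x = 0 := by
  classical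
  have hfin := A.finite
  obtain ⟨S, hS⟩ := (Module.finite_def.1 hfin)
  choose P hP hx using fun x : A.V => hA x
  have key : ∀ T : Finset A.V, ∃ Q : E[X], HasWeights ((p : ℝ) ^ ν g) Set.univ Q ∧
      ∀ x ∈ T, aeval (A.ρ g) Q x = 0 := by
    intro T
    induction T using Finset.induction_on with
    | empty => exact ⟨1, hasWeights_one, by simp⟩
    | insert y T _ ih =>
      obtain ⟨Q, hQ, hQT⟩ := ih
      refine ⟨P y * Q, (hP y).mul hQ, fun x hxT => ?_⟩
      rcases Finset.mem_insert.1 hxT with rfl | hxT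
      · rw [mul_comm, map_mul, Module.End.mul_apply, hx, map_zero]
      · rw [map_mul, Module.End.mul_apply, hQT x hxT, map_zero]
  obtain ⟨Q, hQ, hQS⟩ := key S
  refine ⟨Q, hQ, fun x => ?_⟩
  have hx' : x ∈ Submodule.span E (S : Set A.V) := by
    rw [hS]
    trivial
  have hle : Submodule.span E (S : Set A.V) ≤ LinearMap.ker (aeval (A.ρ g) Q) :=
    Submodule.span_le.2 fun y hy => hQS y hy
  exact hle hx'

/-- The weight filtration of `g`, centred at `m`. -/
def fil (A : WD.{u, v} E p W ν) (m : ℤ) (g : W) (s : ℤ) : Submodule E A.V :=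
  A.wt g {j | j ≤ m + s}

lemma fil_mono : Monotone (A.fil m g) := fun s t hst =>
  wt_mono fun j (hj : j ≤ m + s) => show j ≤ m + t by omega

lemma stable_wt {J : Set ℤ} {x : A.V} (hx : x ∈ A.wt g J) : A.ρ g x ∈ A.wt g J := by
  obtain ⟨P, hP, hx⟩ := hx
  refine ⟨P, hP, ?_⟩
  have h : aeval (A.ρ g) (P * X) x = 0 := by
    rw [mul_comm, aeval_X_mul, hx, map_zero]
  rwa [map_mul, aeval_X, Module.End.mul_apply] at h

lemma stable_poly {M : Submodule E A.V} (hM : ∀ x ∈ M, A.ρ g x ∈ M) (P : E[X]) {x : A.V}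
    (hx : x ∈ M) : aeval (A.ρ g) P x ∈ M := by
  induction P using Polynomial.induction_on with
  | C a =>
    rw [aeval_C, Module.algebraMap_end_apply]
    exact M.smul_mem a hx
  | add P Q hP hQ =>
    rw [map_add, LinearMap.add_apply]
    exact add_mem hP hQ
  | monomial n a h =>
    have h1 : (C a * X ^ (n + 1) : E[X]) = X * (C a * X ^ n) := by ring
    rw [h1, aeval_X_mul]
    exact hM _ h

section

variable (hp : 1 < p) (hg : ν g ≠ 0)

include hp hg

lemma top_step {s : ℤ} {x : A.V} (hx : x ∈ A.fil m g s) :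
    ∃ y ∈ A.wt g {m + s}, ∃ z ∈ A.fil m g (s - 1), x = y + z := by
  have h1 : ({j | j ≤ m + s} : Set ℤ) = {m + s} ∪ {j | j ≤ m + (s - 1)} := by
    ext j
    simp only [Set.mem_setOf_eq, Set.singleton_union, Set.mem_insert_iff]
    omega
  have h2 : x ∈ A.wt g ({m + s} ∪ {j | j ≤ m + (s - 1)}) := by
    rw [← h1]
    exact hx
  refine decomp hp hg ?_ h2
  rw [Set.disjoint_singleton_left]
  simp only [Set.mem_setOf_eq, not_le]
  omega

lemma wt_fil_zero {s : ℤ} {x : A.V} (hx : x ∈ A.wt g {m + s}) (h : x ∈ A.fil m g (s - 1)) :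
    x = 0 := by
  refine disj hp hg ?_ hx h
  rw [Set.disjoint_singleton_left]
  simp only [Set.mem_setOf_eq, not_le]
  omega

/-- The weight filtration is the monodromy filtration. -/
theorem pureAt_of_wt (h : A.WT m g) : A.PureAt m g := by
  refine ⟨A.fil m g, ⟨fil_mono, ?_, ?_, ?_, ?_, ?_⟩, fun s x hx => stable_wt hx, ?_⟩
  · obtain ⟨P, hP, hx⟩ := exists_poly h.mixed
    obtain ⟨a, b, hab⟩ := bounded hP
    refine ⟨a - m - 1, (Submodule.eq_bot_iff _).2 fun x hx' => ?_⟩
    refine disj hp hg (J := Set.Icc a b) ?_ ⟨P, hab, hx x⟩ hx'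
    rw [Set.disjoint_left]
    intro j hj hj'
    simp only [Set.mem_setOf_eq] at hj'
    have := hj.1
    omega
  · obtain ⟨P, hP, hx⟩ := exists_poly h.mixed
    obtain ⟨a, b, hab⟩ := bounded hP
    refine ⟨b - m, (Submodule.eq_top_iff').2 fun x => ⟨P, hab.mono fun j hj => ?_, hx x⟩⟩
    have := hj.2
    change j ≤ m + (b - m)
    omega
  · intro s x hx
    refine wt_mono ?_ (N_wt hp hx)
    intro j (hj : j + 2 ≤ m + s)
    change j ≤ m + (s - 2)
    omega
  · intro s x hx hN
    obtain ⟨y, hy, z, hz, rfl⟩ := top_step hp hg hx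
    have h1 : (A.N ^ s) z ∈ A.fil m g (-s - 1) := by
      refine wt_mono ?_ (pow_wt hp s hz)
      intro j (hj : j + 2 * (s : ℤ) ≤ m + (s - 1))
      change j ≤ m + (-s - 1)
      omega
    have h2 : (A.N ^ s) y ∈ A.fil m g (-s - 1) := by
      have h3 : (A.N ^ s) y = (A.N ^ s) (y + z) - (A.N ^ s) z := by rw [map_add]; abel
      rw [h3]
      exact sub_mem hN h1
    have h4 : (A.N ^ s) y = 0 := by
      refine wt_fil_zero hp hg (m := m) (s := -s) ?_ h2
      have := pow_wt_single hp m s hy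
      rwa [sub_eq_add_neg] at this
    rw [h.inj s y hy h4, zero_add]
    exact hz
  · intro s y hy
    obtain ⟨y1, hy1, y2, hy2, rfl⟩ := top_step hp hg hy
    obtain ⟨x, hx, rfl⟩ := h.surj s y1 (by rwa [← sub_eq_add_neg] at hy1)
    refine ⟨x, wt_mono ?_ hx, ?_⟩
    · intro j hj
      rw [Set.mem_singleton_iff] at hj
      exact hj.le
    · have h1 : (A.N ^ s) x - ((A.N ^ s) x + y2) = -y2 := by abel
      rw [h1]
      exact neg_mem hy2
  · intro s x hx
    obtain ⟨y, hy, z, hz, rfl⟩ := top_step hp hg hx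
    obtain ⟨P, hP, hPy⟩ := hy
    refine ⟨P, hP, ?_⟩
    rw [map_add, hPy, zero_add]
    exact stable_poly (fun x hx => stable_wt hx) P hz

/-- The converse. -/
theorem wt_of_pureAt (h : A.PureAt m g) : A.WT m g := by
  obtain ⟨M, hM, hstab, hP⟩ := h
  obtain ⟨a, ha⟩ := hM.separated
  obtain ⟨b, hb⟩ := hM.exhaustive
  -- `M s` has weights at most `m + s`
  have h1 : ∀ n : ℕ, ∀ x ∈ M (a + n), x ∈ A.fil m g (a + n) := by
    intro n
    induction n with
    | zero =>
      intro x hx
      have h2 : x = 0 := by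
        rw [Nat.cast_zero, add_zero, ha] at hx
        exact hx
      rw [h2]
      exact zero_mem _
    | succ n ih =>
      intro x hx
      obtain ⟨P, hP1, hP2⟩ := hP _ x hx
      have h3 : (a + ((n + 1 : ℕ) : ℤ) - 1) = a + n := by push_cast; ring
      rw [h3] at hP2
      obtain ⟨Q, hQ, hQx⟩ := ih _ hP2
      refine ⟨Q * P, (hQ.mono ?_).mul (hP1.mono ?_), ?_⟩
      · intro j (hj : j ≤ m + (a + n))
        change j ≤ m + (a + ((n + 1 : ℕ) : ℤ))
        push_cast
        omega
      · intro j hj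
        rw [Set.mem_singleton_iff] at hj
        exact hj.le
      · rw [map_mul, Module.End.mul_apply, hQx]
  have h2 : ∀ s, ∀ x ∈ M s, x ∈ A.fil m g s := by
    intro s x hx
    rcases le_or_gt a s with h | h
    · obtain ⟨n, hn⟩ := Int.eq_ofNat_of_zero_le (sub_nonneg.2 h)
      obtain rfl : s = a + n := by omega
      exact h1 n x hx
    · have h3 := hM.mono h.le hx
      rw [ha] at h3
      rw [show x = 0 from h3]
      exact zero_mem _
  -- a vector of weight at most `m + s` is in `M s`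
  have h3 : ∀ s, ∀ x ∈ A.fil m g s, x ∈ M s := by
    intro s x hx
    have h4 : ∀ n : ℕ, x ∈ M (s + n) → x ∈ M s := by
      intro n
      induction n with
      | zero => intro h; simpa using h
      | succ n ih =>
        intro h
        refine ih ?_
        obtain ⟨P, hP1, hP2⟩ := hP _ x h
        obtain ⟨Q, hQ, hQx⟩ := hx
        have hdis : Disjoint ({m + (s + ((n + 1 : ℕ) : ℤ))} : Set ℤ) {j | j ≤ m + s} := by
          rw [Set.disjoint_singleton_left]
          simp only [Set.mem_setOf_eq, not_le]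
          push_cast
          omega
        obtain ⟨u, v, huv⟩ := coprime (pos hp) (ne_one hp hg) hdis hP1 hQ
        have h5 : x = aeval (A.ρ g) u (aeval (A.ρ g) P x) := by
          have h6 : aeval (A.ρ g) (u * P + v * Q) x = x := by
            rw [huv, map_one, Module.End.one_apply]
          rw [map_add, LinearMap.add_apply, map_mul, map_mul, Module.End.mul_apply,
            Module.End.mul_apply, hQx, map_zero, add_zero] at h6
          exact h6.symm
        rw [h5]
        have h7 : (s + ((n + 1 : ℕ) : ℤ) - 1) = s + n := by push_cast; ring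
        rw [h7] at hP2
        exact stable_poly (hstab _) u hP2
    have h5 : x ∈ M (s + (b - s).toNat) := by
      have h6 : b ≤ s + (b - s).toNat := by
        have := Int.self_le_toNat (b - s)
        omega
      refine hM.mono h6 ?_
      rw [hb]
      trivial
    exact h4 _ h5
  refine ⟨fun x => ?_, fun i x hx hN => ?_, fun i y hy => ?_⟩
  · have h4 : x ∈ M b := by
      rw [hb]
      trivial
    exact wt_mono (Set.subset_univ _) (h2 b x h4)
  · have h4 : x ∈ M i := h3 _ _ (wt_mono (fun j hj => by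
      rw [Set.mem_singleton_iff] at hj
      exact hj.le) hx)
    have h5 := hM.inj i x h4 (by rw [hN]; exact zero_mem _)
    exact wt_fil_zero hp hg hx (h2 _ _ h5)
  · have h4 : y ∈ M (-i) := h3 _ _ (wt_mono (fun j hj => by
      rw [Set.mem_singleton_iff] at hj
      change j ≤ m + -i
      omega) hy)
    obtain ⟨x, hx, hxy⟩ := hM.surj i y h4
    obtain ⟨x1, hx1, x2, hx2, rfl⟩ := top_step hp hg (h2 _ _ hx)
    refine ⟨x1, hx1, ?_⟩
    have h5 : (A.N ^ i) x2 ∈ A.fil m g (-i - 1) := by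
      refine wt_mono ?_ (pow_wt hp i hx2)
      intro j (hj : j + 2 * (i : ℤ) ≤ m + (i - 1))
      change j ≤ m + (-i - 1)
      omega
    have h6 : (A.N ^ i) x1 - y ∈ A.fil m g (-i - 1) := by
      have h7 : (A.N ^ i) x1 - y = ((A.N ^ i) (x1 + x2) - y) - (A.N ^ i) x2 := by
        rw [map_add]
        abel
      rw [h7]
      exact sub_mem (h2 _ _ hxy) h5
    have h8 : (A.N ^ i) x1 - y ∈ A.wt g {m + -i} := by
      rw [← sub_eq_add_neg]
      exact sub_mem (pow_wt_single hp m i hx1) hy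
    exact sub_eq_zero.1 (wt_fil_zero hp hg h8 h6)

theorem pureAt_iff : A.PureAt m g ↔ A.WT m g := ⟨wt_of_pureAt hp hg, pureAt_of_wt hp hg⟩

end

/-- Tate twists -/
lemma IsTwist.wt (hp : 1 < p) (n : ℕ) (h : IsTwist (n : ℤ) A B) :
    A.WT m g ↔ B.WT (m + 2 * n) g := by
  obtain ⟨f, hf, hN, hρ⟩ := h
  have hp0 : (p : E) ≠ 0 := by
    have : p ≠ 0 := by omega
    exact_mod_cast this
  have hq : ((p : E) ^ ((n : ℤ) * ν g)) ≠ 0 := zpow_ne_zero _ hp0
  have hpow : ∀ i : ℕ, ∀ x, f ((A.N ^ i) x) = (B.N ^ i) (f x) := by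
    intro i
    induction i with
    | zero => exact fun x => rfl
    | succ i ih =>
      intro x
      rw [pow_succ, Module.End.mul_apply, ih, hN, pow_succ, Module.End.mul_apply]
  -- polynomials
  have key : ∀ (Q : E[X]) x, f (aeval (A.ρ g) (Q.comp (C ((p : E) ^ ((n : ℤ) * ν g)) * X)) x) =
      aeval (B.ρ g) Q (f x) := by
    intro Q x
    have h1 : ∀ y, f (((p : E) ^ ((n : ℤ) * ν g)) • A.ρ g y) = B.ρ g (f y) := hρ g
    rw [aeval_comp]
    have h4 : aeval (A.ρ g) (C ((p : E) ^ ((n : ℤ) * ν g)) * X : E[X]) =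
        ((p : E) ^ ((n : ℤ) * ν g)) • A.ρ g := by
      rw [map_mul, aeval_C, aeval_X, Algebra.smul_def]
    rw [h4]
    induction Q using Polynomial.induction_on with
    | C a => simp only [aeval_C, Module.algebraMap_end_apply, map_smul]
    | add P Q hP hQ =>
      have h5 : ∀ (T : Module.End E A.V) y, aeval T (P + Q) y = aeval T P y + aeval T Q y :=
        fun T y => by rw [map_add, LinearMap.add_apply]
      have h6 : ∀ (T : Module.End E B.V) y, aeval T (P + Q) y = aeval T P y + aeval T Q y :=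
        fun T y => by rw [map_add, LinearMap.add_apply]
      rw [h5, h6, map_add, hP, hQ]
    | monomial k a h =>
      have h5 : (C a * X ^ (k + 1) : E[X]) = X * (C a * X ^ k) := by ring
      rw [h5, aeval_X_mul, aeval_X_mul, LinearMap.smul_apply, h1, h]
  have hinj : ∀ x, f x = 0 → x = 0 := fun x hx => hf.1 (by rw [hx, map_zero])
  -- weights
  have ha : (0 : ℚ) < (p : ℚ) ^ ν g := zpow_pos (by positivity) _
  have hw1 : ∀ (J : Set ℤ) (P : E[X]), HasWeights ((p : ℝ) ^ ν g) J P →
      ∀ k : ℕ, HasWeights ((p : ℝ) ^ ν g) {j | j + 2 * k ∈ J}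
        (P.comp (C ((p : E) ^ ((k : ℤ) * ν g)) * X)) := by
    intro J P hP k
    induction k with
    | zero => simpa using hP
    | succ k ih =>
      have h5 : HasWeights (((p : ℚ) ^ ν g : ℚ) : ℝ) {j | j + 2 * (k : ℤ) ∈ J}
          (P.comp (C ((p : E) ^ ((k : ℤ) * ν g)) * X)) := by
        push_cast
        exact ih
      have h6 := h5.comp _ ha
      push_cast at h6
      have h7 : (P.comp (C ((p : E) ^ ((k : ℤ) * ν g)) * X)).comp (C ((p : E) ^ ν g) * X) =
          P.comp (C ((p : E) ^ (((k + 1 : ℕ) : ℤ) * ν g)) * X) := by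
        rw [comp_assoc, mul_comp, C_comp, X_comp, ← mul_assoc, ← C_mul, ← zpow_add₀ hp0]
        congr 4
        push_cast
        ring
      rw [h7] at h6
      refine h6.mono ?_
      intro j (hj : j + 2 + 2 * (k : ℤ) ∈ J)
      change j + 2 * ((k + 1 : ℕ) : ℤ) ∈ J
      have h8 : j + 2 * ((k + 1 : ℕ) : ℤ) = j + 2 + 2 * (k : ℤ) := by push_cast; ring
      rwa [h8]
  have hw2 : ∀ (J : Set ℤ) (P : E[X]), HasWeights ((p : ℝ) ^ ν g) J P →
      ∀ k : ℕ, HasWeights ((p : ℝ) ^ ν g) {j | j - 2 * k ∈ J}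
        (P.comp (C (((p : E) ^ ((k : ℤ) * ν g))⁻¹) * X)) := by
    intro J P hP k
    induction k with
    | zero => simpa using hP
    | succ k ih =>
      have h5 : HasWeights (((p : ℚ) ^ ν g : ℚ) : ℝ) {j | j - 2 * (k : ℤ) ∈ J}
          (P.comp (C (((p : E) ^ ((k : ℤ) * ν g))⁻¹) * X)) := by
        push_cast
        exact ih
      have h6 := h5.comp_inv _ ha
      push_cast at h6
      have h7 : (P.comp (C (((p : E) ^ ((k : ℤ) * ν g))⁻¹) * X)).comp (C ((p : E) ^ ν g)⁻¹ * X) =
          P.comp (C (((p : E) ^ (((k + 1 : ℕ) : ℤ) * ν g))⁻¹) * X) := by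
        rw [comp_assoc, mul_comp, C_comp, X_comp, ← mul_assoc, ← C_mul, ← mul_inv, ← zpow_add₀ hp0]
        congr 5
        push_cast
        ring
      rw [h7] at h6
      refine h6.mono ?_
      intro j (hj : j - 2 - 2 * (k : ℤ) ∈ J)
      change j - 2 * ((k + 1 : ℕ) : ℤ) ∈ J
      have h8 : j - 2 * ((k + 1 : ℕ) : ℤ) = j - 2 - 2 * (k : ℤ) := by push_cast; ring
      rwa [h8]
  have hwt : ∀ (j : ℤ) x, x ∈ A.wt g {j} ↔ f x ∈ B.wt g {j + 2 * n} := by
    intro j x
    constructor
    · rintro ⟨P, hP, hx⟩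
      refine ⟨_, (hw2 _ P hP n).mono ?_, ?_⟩
      · intro i (hi : i - 2 * (n : ℤ) ∈ ({j} : Set ℤ))
        rw [Set.mem_singleton_iff] at hi ⊢
        omega
      · rw [← key, comp_assoc, mul_comp, C_comp, X_comp, ← mul_assoc, ← C_mul, inv_mul_cancel₀ hq,
          C_1, one_mul, comp_X, hx, map_zero]
    · rintro ⟨P, hP, hx⟩
      refine ⟨_, (hw1 _ P hP n).mono ?_, hinj _ ?_⟩
      · intro i (hi : i + 2 * (n : ℤ) ∈ ({j + 2 * n} : Set ℤ))
        rw [Set.mem_singleton_iff] at hi ⊢
        omega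
      · rw [key, hx]
  have hmix : A.Mixed g ↔ B.Mixed g := by
    constructor
    · intro h y
      obtain ⟨x, rfl⟩ := hf.2 y
      obtain ⟨P, hP, hx⟩ := h x
      refine ⟨_, (hw2 _ P hP n).mono (Set.subset_univ _), ?_⟩
      rw [← key, comp_assoc, mul_comp, C_comp, X_comp, ← mul_assoc, ← C_mul, inv_mul_cancel₀ hq,
        C_1, one_mul, comp_X, hx, map_zero]
    · intro h x
      obtain ⟨P, hP, hx⟩ := h (f x)
      exact ⟨_, (hw1 _ P hP n).mono (Set.subset_univ _), hinj _ (by rw [key, hx])⟩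
  constructor
  · intro h
    refine ⟨hmix.1 h.mixed, fun i y hy hNy => ?_, fun i y hy => ?_⟩
    · obtain ⟨x, rfl⟩ := hf.2 y
      have h1 : x ∈ A.wt g {m + i} := (hwt _ x).2 (by
        have : m + (i : ℤ) + 2 * n = m + 2 * n + i := by ring
        rwa [this])
      rw [h.inj i x h1 (hinj _ (by rw [hpow, hNy])), map_zero]
    · obtain ⟨z, rfl⟩ := hf.2 y
      have h1 : z ∈ A.wt g {m - i} := (hwt _ z).2 (by
        have : m - (i : ℤ) + 2 * n = m + 2 * n - i := by ring
        rwa [this])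
      obtain ⟨x, hx, rfl⟩ := h.surj i z h1
      refine ⟨f x, ?_, (hpow i x).symm⟩
      have := (hwt _ x).1 hx
      have h2 : m + (i : ℤ) + 2 * n = m + 2 * n + i := by ring
      rwa [h2] at this
  · intro h
    refine ⟨hmix.2 h.mixed, fun i x hx hNx => ?_, fun i z hz => ?_⟩
    · refine hinj _ (h.inj i _ ?_ (by rw [← hpow, hNx, map_zero]))
      have := (hwt _ x).1 hx
      have h2 : m + (i : ℤ) + 2 * n = m + 2 * n + i := by ring
      rwa [h2] at this
    · have h1 : f z ∈ B.wt g {m + 2 * n - i} := by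
        have := (hwt _ z).1 hz
        have h2 : m - (i : ℤ) + 2 * n = m + 2 * n - i := by ring
        rwa [h2] at this
      obtain ⟨y, hy, hyz⟩ := h.surj i _ h1
      obtain ⟨x, rfl⟩ := hf.2 y
      refine ⟨x, (hwt _ x).2 ?_, hf.1 (by rw [hpow, hyz])⟩
      have h2 : m + (i : ℤ) + 2 * n = m + 2 * n + i := by ring
      rwa [h2]

end Pool.Agent.U213.WM.WD
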