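import Pool.Agent.U213.WM.Weil

/-!
# Representations of the Weil group with a monodromy operator
-/

set_option autoImplicit false

open Module Polynomial

namespace Pool.Agent.U213.WM

universe u v

namespace WD

variable {E : Type u} [Field E] [CharZero E] {p : ℕ} {W : Type} [Group W] {ν : W → ℤ}

/-- The elements which are killed by a polynomial in `g` whose roots have weights in `J`. -/
def wt (A : WD.{u, v} E p W ν) (g : W) (J : Set ℤ) : Submodule E A.V where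
  carrier := {x | ∃ P : E[X], HasWeights ((p : ℝ) ^ ν g) J P ∧ aeval (A.ρ g) P x = 0}
  zero_mem' := ⟨1, hasWeights_one, map_zero _⟩
  add_mem' := by
    rintro x y ⟨P, hP, hx⟩ ⟨Q, hQ, hy⟩
    refine ⟨P * Q, hP.mul hQ, ?_⟩
    rw [map_add]
    have h1 : aeval (A.ρ g) (P * Q) x = 0 := by
      rw [mul_comm, map_mul, Module.End.mul_apply, hx, map_zero]
    have h2 : aeval (A.ρ g) (P * Q) y = 0 := by
      rw [map_mul, Module.End.mul_apply, hy, map_zero]
    rw [h1, h2, add_zero]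
  smul_mem' := by
    rintro c x ⟨P, hP, hx⟩
    exact ⟨P, hP, by rw [map_smul, hx, smul_zero]⟩

variable {A B C : WD.{u, v} E p W ν} {g : W} {J J' : Set ℤ}

lemma mem_wt {x : A.V} : x ∈ A.wt g J ↔
    ∃ P : E[X], HasWeights ((p : ℝ) ^ ν g) J P ∧ aeval (A.ρ g) P x = 0 := Iff.rfl

lemma wt_mono (h : J ⊆ J') : A.wt g J ≤ A.wt g J' := by
  rintro x ⟨P, hP, hx⟩
  exact ⟨P, hP.mono h, hx⟩

omit [Group W] in
lemma pos (hp : 1 < p) : 0 < (p : ℝ) ^ ν g := zpow_pos (by positivity) _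

section

variable (hp : 1 < p) (hg : ν g ≠ 0)

include hp hg

omit [Group W] in
lemma ne_one : (p : ℝ) ^ ν g ≠ 1 := by
  intro h
  have hp' : (1 : ℝ) < p := by exact_mod_cast hp
  exact hg ((zpow_eq_one_iff_right₀ (by positivity) hp'.ne').1 h)

lemma disj (hJ : Disjoint J J') {x : A.V} (h : x ∈ A.wt g J) (h' : x ∈ A.wt g J') : x = 0 := by
  obtain ⟨P, hP, hx⟩ := h
  obtain ⟨Q, hQ, hx'⟩ := h'
  obtain ⟨a, b, hab⟩ := coprime (pos hp) (ne_one hp hg) hJ hP hQ
  have h1 : aeval (A.ρ g) (a * P + b * Q) x = 0 := by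
    rw [map_add, map_mul, map_mul, LinearMap.add_apply, Module.End.mul_apply, Module.End.mul_apply,
      hx, hx', map_zero, map_zero, add_zero]
  rw [hab, map_one] at h1
  exact h1

lemma decomp (hJ : Disjoint J J') {x : A.V} (h : x ∈ A.wt g (J ∪ J')) :
    ∃ y ∈ A.wt g J, ∃ z ∈ A.wt g J', x = y + z := by
  obtain ⟨P, hP, hx⟩ := h
  obtain ⟨Q, R, rfl, hQ, hR⟩ := split hP
  obtain ⟨a, b, hab⟩ := coprime (pos hp) (ne_one hp hg) hJ hQ hR
  refine ⟨aeval (A.ρ g) (b * R) x, ⟨Q, hQ, ?_⟩, aeval (A.ρ g) (a * Q) x, ⟨R, hR, ?_⟩, ?_⟩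
  · rw [← Module.End.mul_apply, ← map_mul, show Q * (b * R) = b * (Q * R) by ring, map_mul,
      Module.End.mul_apply, hx, map_zero]
  · rw [← Module.End.mul_apply, ← map_mul, show R * (a * Q) = a * (Q * R) by ring, map_mul,
      Module.End.mul_apply, hx, map_zero]
  · rw [← LinearMap.add_apply, ← map_add, add_comm, hab, map_one, Module.End.one_apply]

end

lemma aeval_X_mul (T : Module.End E A.V) (q : E[X]) (x : A.V) :
    Polynomial.aeval T (X * q) x = T (Polynomial.aeval T q x) := by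
  rw [map_mul, aeval_X, Module.End.mul_apply]

lemma Hom.aeval (f : Hom A B) (P : E[X]) (x : A.V) :
    f.f (Polynomial.aeval (A.ρ g) P x) = Polynomial.aeval (B.ρ g) P (f.f x) := by
  induction P using Polynomial.induction_on with
  | C a => simp only [aeval_C, Module.algebraMap_end_apply, map_smul]
  | add P Q hP hQ =>
    have h1 : ∀ y, Polynomial.aeval (A.ρ g) (P + Q) y =
        Polynomial.aeval (A.ρ g) P y + Polynomial.aeval (A.ρ g) Q y := fun y => by
      rw [map_add, LinearMap.add_apply]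
    have h2 : ∀ y, Polynomial.aeval (B.ρ g) (P + Q) y =
        Polynomial.aeval (B.ρ g) P y + Polynomial.aeval (B.ρ g) Q y := fun y => by
      rw [map_add, LinearMap.add_apply]
    rw [h1, h2, map_add, hP, hQ]
  | monomial n a h =>
    have h1 : (C a * X ^ (n + 1) : E[X]) = X * (C a * X ^ n) := by ring
    rw [h1, aeval_X_mul, aeval_X_mul, f.ρ, h]

lemma Hom.wt (f : Hom A B) {x : A.V} (h : x ∈ A.wt g J) : f.f x ∈ B.wt g J := by
  obtain ⟨P, hP, hx⟩ := h
  exact ⟨P, hP, by rw [← f.aeval, hx, map_zero]⟩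

lemma Hom.pow (f : Hom A B) (n : ℕ) (x : A.V) : f.f ((A.N ^ n) x) = (B.N ^ n) (f.f x) := by
  induction n generalizing x with
  | zero => rfl
  | succ n ih => rw [pow_succ, Module.End.mul_apply, ih, f.N, pow_succ, Module.End.mul_apply]

/-- All weights are integers. -/
def Mixed (A : WD.{u, v} E p W ν) (g : W) : Prop := ∀ x : A.V, x ∈ A.wt g Set.univ

/-- The formulation with the weight spaces. -/
structure WT (A : WD.{u, v} E p W ν) (m : ℤ) (g : W) : Prop where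
  mixed : A.Mixed g
  inj : ∀ i : ℕ, ∀ x ∈ A.wt g {m + i}, (A.N ^ i) x = 0 → x = 0
  surj : ∀ i : ℕ, ∀ y ∈ A.wt g {m - i}, ∃ x ∈ A.wt g {m + i}, (A.N ^ i) x = y

/-- lifts of elements of weight spaces -/
lemma lift (hp : 1 < p) (hg : ν g ≠ 0) (f : Hom A B) (hA : A.Mixed g) {x : B.V} (hx : x ∈ B.wt g J)
    (h : ∃ a, f.f a = x) : ∃ a ∈ A.wt g J, f.f a = x := by
  obtain ⟨a, rfl⟩ := h
  have h1 : a ∈ A.wt g (J ∪ Jᶜ) := by
    rw [Set.union_compl_self]
    exact hA a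
  obtain ⟨y, hy, z, hz, rfl⟩ := decomp hp hg disjoint_compl_right h1
  refine ⟨y, hy, ?_⟩
  have h2 : f.f z ∈ B.wt g J := by
    have h3 : f.f z = f.f (y + z) - f.f y := by rw [map_add]; abel
    rw [h3]
    exact sub_mem hx (f.wt hy)
  rw [map_add, disj hp hg disjoint_compl_right h2 (f.wt hz), add_zero]

lemma mixed_mid {f : Hom A B} {h : Hom B C} (he : Function.Exact f.f h.f) (hA : A.Mixed g)
    (hC : C.Mixed g) : B.Mixed g := by
  intro x
  obtain ⟨P, hP, hx⟩ := hC (h.f x)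
  rw [← h.aeval] at hx
  obtain ⟨a, ha⟩ := (he _).1 hx
  obtain ⟨Q, hQ, hy⟩ := hA a
  refine ⟨Q * P, hQ.mul hP, ?_⟩
  rw [map_mul, Module.End.mul_apply, ← ha, ← f.aeval, hy, map_zero]

/-- the action of the monodromy operator on the weights -/
lemma N_wt (hp : 1 < p) {x : A.V} (hx : x ∈ A.wt g J) : A.N x ∈ A.wt g {j | j + 2 ∈ J} := by
  obtain ⟨P, hP, hx⟩ := hx
  have ha : (0 : ℚ) < (p : ℚ) ^ ν g := zpow_pos (by positivity) _
  have hP' : HasWeights (((p : ℚ) ^ ν g : ℚ) : ℝ) J P := by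
    push_cast
    exact hP
  have h1 := hP'.comp _ ha
  push_cast at h1
  refine ⟨_, h1, ?_⟩
  have h2 : ∀ Q : E[X], Polynomial.aeval (A.ρ g) (Q.comp (C ((p : E) ^ ν g) * X)) (A.N x) =
      A.N (Polynomial.aeval (A.ρ g) Q x) := by
    intro Q
    have h3 : ∀ y, ((p : E) ^ ν g) • A.ρ g (A.N y) = A.N (A.ρ g y) := fun y => (A.comm g y).symm
    rw [aeval_comp]
    have h4 : Polynomial.aeval (A.ρ g) (C ((p : E) ^ ν g) * X : E[X]) = ((p : E) ^ ν g) • A.ρ g := by
      rw [map_mul, aeval_C, aeval_X, Algebra.smul_def]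
    rw [h4]
    induction Q using Polynomial.induction_on with
    | C a => simp only [aeval_C, Module.algebraMap_end_apply, map_smul]
    | add P Q hP hQ =>
      have h5 : ∀ (T : Module.End E A.V) y, Polynomial.aeval T (P + Q) y =
          Polynomial.aeval T P y + Polynomial.aeval T Q y := fun T y => by
        rw [map_add, LinearMap.add_apply]
      rw [h5, h5, map_add, hP, hQ]
    | monomial n a h =>
      have h1 : (C a * X ^ (n + 1) : E[X]) = X * (C a * X ^ n) := by ring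
      rw [h1, aeval_X_mul, aeval_X_mul, h, LinearMap.smul_apply, h3]
  rw [h2, hx, map_zero]

lemma pow_wt (hp : 1 < p) (n : ℕ) {x : A.V} (hx : x ∈ A.wt g J) :
    (A.N ^ n) x ∈ A.wt g {j | j + 2 * n ∈ J} := by
  induction n with
  | zero => simpa using hx
  | succ n ih =>
    rw [pow_succ', Module.End.mul_apply]
    refine wt_mono ?_ (N_wt hp ih)
    intro j hj
    have : (j + 2 + 2 * (n : ℤ)) = j + 2 * ((n + 1 : ℕ) : ℤ) := by push_cast; ring
    simpa [this] using hj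

lemma pow_wt_single (hp : 1 < p) (m : ℤ) (i : ℕ) {x : A.V} (hx : x ∈ A.wt g {m + i}) :
    (A.N ^ i) x ∈ A.wt g {m - i} := by
  refine wt_mono ?_ (pow_wt hp i hx)
  intro j hj
  have hj' : j + 2 * (i : ℤ) = m + i := hj
  change j = m - i
  linarith

/-- **The five lemma.** -/
lemma WT.five (hp : 1 < p) (hg : ν g ≠ 0) {m : ℤ} {A₁ A₂ A₃ A₄ A₅ : WD.{u, v} E p W ν}
    (f₁ : Hom A₁ A₂) (f₂ : Hom A₂ A₃) (f₃ : Hom A₃ A₄) (f₄ : Hom A₄ A₅)
    (e₁ : Function.Exact f₁.f f₂.f) (e₂ : Function.Exact f₂.f f₃.f) (e₃ : Function.Exact f₃.f f₄.f)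
    (h₁ : A₁.WT m g) (h₂ : A₂.WT m g) (h₄ : A₄.WT m g) (h₅ : A₅.WT m g) : A₃.WT m g := by
  have hm : A₃.Mixed g := mixed_mid e₂ h₂.mixed h₄.mixed
  refine ⟨hm, fun i x hx hN => ?_, fun i y hy => ?_⟩
  · have h1 : f₃.f x = 0 := h₄.inj i _ (f₃.wt hx) (by rw [← f₃.pow, hN, map_zero])
    obtain ⟨a, ha, rfl⟩ := lift hp hg f₂ h₂.mixed hx ((e₂ x).1 h1)
    rw [← f₂.pow] at hN
    obtain ⟨b, hb, hb'⟩ := lift hp hg f₁ h₁.mixed (pow_wt_single hp m i ha) ((e₁ _).1 hN)
    obtain ⟨b', hb1, rfl⟩ := h₁.surj i b hb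
    have h2 : a - f₁.f b' = 0 := by
      refine h₂.inj i _ (sub_mem ha (f₁.wt hb1)) ?_
      rw [map_sub, ← f₁.pow, hb', sub_self]
    rw [sub_eq_zero.1 h2]
    exact (e₁ _).2 ⟨b', rfl⟩
  · obtain ⟨z, hz, hzy⟩ := h₄.surj i _ (f₃.wt hy)
    have h1 : f₄.f z = 0 := by
      refine h₅.inj i _ (f₄.wt hz) ?_
      rw [← f₄.pow, hzy]
      exact (e₃ _).2 ⟨y, rfl⟩
    obtain ⟨x, hx, rfl⟩ := lift hp hg f₃ hm hz ((e₃ z).1 h1)
    have h2 : f₃.f (y - (A₃.N ^ i) x) = 0 := by rw [map_sub, f₃.pow, hzy, sub_self]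
    have h3 : y - (A₃.N ^ i) x ∈ A₃.wt g {m - i} := sub_mem hy (pow_wt_single hp m i hx)
    obtain ⟨a, ha, ha'⟩ := lift hp hg f₂ h₂.mixed h3 ((e₂ _).1 h2)
    obtain ⟨a', ha1, rfl⟩ := h₂.surj i a ha
    refine ⟨x + f₂.f a', add_mem hx (f₂.wt ha1), ?_⟩
    rw [map_add, ← f₂.pow, ha']
    abel

lemma WT.factor {m : ℤ} (h : IsFactor A B) (hB : B.WT m g) : A.WT m g := by
  obtain ⟨s, r, hsr⟩ := h
  have hinj : ∀ x, s.f x = 0 → x = 0 := fun x hx => by rw [← hsr x, hx, map_zero]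
  refine ⟨fun x => ?_, fun i x hx hN => ?_, fun i y hy => ?_⟩
  · obtain ⟨P, hP, hx⟩ := hB.mixed (s.f x)
    exact ⟨P, hP, hinj _ (by rw [s.aeval, hx])⟩
  · exact hinj _ (hB.inj i _ (s.wt hx) (by rw [← s.pow, hN, map_zero]))
  · obtain ⟨x, hx, hxy⟩ := hB.surj i _ (s.wt hy)
    refine ⟨r.f x, r.wt hx, ?_⟩
    rw [← r.pow, hxy, hsr]

lemma IsIso.factor (h : IsIso A B) : IsFactor A B ∧ IsFactor B A := by
  obtain ⟨f, hf⟩ := h
  let e := LinearEquiv.ofBijective f.f hf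
  have he : ∀ x, e x = f.f x := fun x => rfl
  let r : Hom B A :=
    { f := e.symm.toLinearMap
      ρ := fun g x => by
        apply e.injective
        change e (e.symm (B.ρ g x)) = e (A.ρ g (e.symm x))
        rw [e.apply_symm_apply, he, f.ρ, ← he, e.apply_symm_apply]
      N := fun x => by
        apply e.injective
        change e (e.symm (B.N x)) = e (A.N (e.symm x))
        rw [e.apply_symm_apply, he, f.N, ← he, e.apply_symm_apply] }
  exact ⟨⟨f, r, fun x => e.symm_apply_apply x⟩, ⟨r, f, fun x => e.apply_symm_apply x⟩⟩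

lemma WT.of_subsingleton {m : ℤ} (h : Subsingleton A.V) : A.WT m g :=
  ⟨fun x => by rw [Subsingleton.elim x 0]; exact zero_mem _, fun _ x _ _ => Subsingleton.elim x 0,
    fun _ y _ => ⟨0, zero_mem _, Subsingleton.elim _ _⟩⟩

/-- the trivial representation is pure of weight zero -/
lemma WT.trivial (hp : 1 < p) (hg : ν g ≠ 0) (h1 : ∀ x, A.ρ g x = x) : A.WT 0 g := by
  have hw : HasWeights ((p : ℝ) ^ ν g) {0} (X - 1 : E[X]) := by
    refine ⟨X_sub_C_ne_zero 1, fun μ hμ => ⟨0, rfl, ?_⟩⟩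
    have h3 : μ = 1 := by
      rw [map_sub, aeval_X, map_one, sub_eq_zero] at hμ
      exact hμ
    subst h3
    refine ⟨isAlgebraic_one, fun z hz => ?_⟩
    rw [minpoly.one, map_sub, aeval_X, map_one, sub_eq_zero] at hz
    rw [hz]
    simp
  have h0 : ∀ x : A.V, x ∈ A.wt g {0} := fun x => ⟨_, hw, by
    rw [map_sub, aeval_X, map_one, LinearMap.sub_apply, h1, Module.End.one_apply, sub_self]⟩
  refine ⟨fun x => wt_mono (Set.subset_univ _) (h0 x), fun i x hx hN => ?_, fun i y hy => ?_⟩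
  · rcases Nat.eq_zero_or_pos i with rfl | hi
    · exact hN
    · refine disj hp hg ?_ (h0 x) hx
      rw [Set.disjoint_singleton]
      omega
  · rcases Nat.eq_zero_or_pos i with rfl | hi
    · exact ⟨y, by simpa using hy, rfl⟩
    · refine ⟨0, zero_mem _, ?_⟩
      rw [map_zero]
      refine (disj hp hg ?_ (h0 y) hy).symm
      rw [Set.disjoint_singleton]
      omega

end WD

end Pool.Agent.U213.WM
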