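import Pool.Agent.U213.WM.Defs
import Pool.Agent.U213.BP.Alt
import Pool.Agent.U738.BN.Dich

/-!
# The monodromy-weight conjecture in a single degree and the number of terms
-/

set_option autoImplicit false

open CategoryTheory AlgebraicGeometry MvPolynomial Pool.Agent.Y116.UV Pool.Agent.Z125.UN
  Pool.Agent.Q282.UZ Pool.Agent.U738.BN Pool.Agent.U213.BP
open Pool.Agent.U213.TB (Sparse sparse_iff)

namespace Pool.Agent.U213.WM

universe u v

section rep

variable {E : Type u} [Field E] [CharZero E] {p : ℕ} {W : Type} [Group W] {ν : W → ℤ}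
  {A B : WD.{u, v} E p W ν} {m : ℤ}

lemma WD.mw_factor (hp : 1 < p) (h : WD.IsFactor A B) (hB : B.MW m) : A.MW m := fun g hg =>
  (WD.pureAt_iff hp hg).2 (WD.WT.factor h ((WD.pureAt_iff hp hg).1 (hB g hg)))

lemma WD.mw_iso (hp : 1 < p) (h : WD.IsIso A B) : A.MW m ↔ B.MW m :=
  ⟨WD.mw_factor hp (WD.IsIso.factor h).2, WD.mw_factor hp (WD.IsIso.factor h).1⟩

lemma WD.mw_zero (hp : 1 < p) (h : Subsingleton A.V) : A.MW m := fun _ hg =>
  (WD.pureAt_iff hp hg).2 (WD.WT.of_subsingleton h)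

lemma WD.mw_trivial (hp : 1 < p) (h : ∀ g x, A.ρ g x = x) : A.MW 0 := fun g hg =>
  (WD.pureAt_iff hp hg).2 (WD.WT.trivial hp hg (h g))

lemma WD.mw_twist (hp : 1 < p) (n : ℕ) (h : WD.IsTwist (n : ℤ) A B) :
    A.MW m ↔ B.MW (m + 2 * n) :=
  forall_congr' fun _ => forall_congr' fun hg =>
    (WD.pureAt_iff hp hg).trans ((WD.IsTwist.wt hp n h).trans (WD.pureAt_iff hp hg).symm)

lemma WD.mw_five (hp : 1 < p) {A₁ A₂ A₃ A₄ A₅ : WD.{u, v} E p W ν}
    (f₁ : WD.Hom A₁ A₂) (f₂ : WD.Hom A₂ A₃) (f₃ : WD.Hom A₃ A₄) (f₄ : WD.Hom A₄ A₅)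
    (e₁ : Function.Exact f₁.f f₂.f) (e₂ : Function.Exact f₂.f f₃.f) (e₃ : Function.Exact f₃.f f₄.f)
    (h₁ : A₁.MW m) (h₂ : A₂.MW m) (h₄ : A₄.MW m) (h₅ : A₅.MW m) : A₃.MW m := fun g hg =>
  (WD.pureAt_iff hp hg).2 (WD.WT.five hp hg f₁ f₂ f₃ f₄ e₁ e₂ e₃
    ((WD.pureAt_iff hp hg).1 (h₁ g hg)) ((WD.pureAt_iff hp hg).1 (h₂ g hg))
    ((WD.pureAt_iff hp hg).1 (h₄ g hg)) ((WD.pureAt_iff hp hg).1 (h₅ g hg)))

/-- restriction -/
lemma WD.mw_res {W₀ : Type} [Group W₀] {ν₀ : W₀ → ℤ} (hp : 1 < p) (φ : W →* W₀)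
    (hφ : ∀ g, ν₀ (φ g) = ν g) {e : E} (he : e ≠ 0) {A : WD.{u, v} E p W₀ ν₀} (h : A.MW m) :
    (WD.res φ hφ e A).MW m := by
  intro g hg
  have hg' : ν₀ (φ g) ≠ 0 := by rw [hφ]; exact hg
  have h1 := (WD.pureAt_iff hp hg').1 (h (φ g) hg')
  refine (WD.pureAt_iff hp hg).2 ?_
  have hw : ∀ (J : Set ℤ) (x : A.V), x ∈ A.wt (φ g) J ↔
      (show (WD.res φ hφ e A).V from x) ∈ (WD.res φ hφ e A).wt g J := by
    intro J x
    change (∃ P : Polynomial E, HasWeights ((p : ℝ) ^ ν₀ (φ g)) J P ∧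
      Polynomial.aeval (A.ρ (φ g)) P x = 0) ↔
      ∃ P : Polynomial E, HasWeights ((p : ℝ) ^ ν g) J P ∧ Polynomial.aeval (A.ρ (φ g)) P x = 0
    rw [hφ]
  have hN : ∀ (i : ℕ) (x : A.V), (((e • A.N : Module.End E A.V)) ^ i) x = e ^ i • (A.N ^ i) x := by
    intro i x
    rw [smul_pow, LinearMap.smul_apply]
  refine ⟨fun x => (hw _ x).1 (h1.mixed x), fun i x hx hx0 => ?_, fun i y hy => ?_⟩
  · refine h1.inj i x ((hw _ x).2 hx) ?_
    have h2 := (hN i x).symm.trans hx0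
    exact (smul_eq_zero.1 h2).resolve_left (pow_ne_zero i he)
  · obtain ⟨x, hx, hxy⟩ := h1.surj i y ((hw _ y).2 hy)
    have h3 : (e ^ i)⁻¹ • x ∈ A.wt (φ g) {m + i} := Submodule.smul_mem _ _ hx
    refine ⟨_, (hw _ _).1 h3, ?_⟩
    refine (hN i _).trans ?_
    rw [map_smul, hxy]
    exact smul_inv_smul₀ (pow_ne_zero i he) (y : A.V)

end rep

section

variable {k : Type} [Field k] {E : Type u} [Field E] [CharZero E] {p : ℕ} {W : Type} [Group W]
  {ν : W → ℤ} (T : Theory.{u, v} k E p W ν) (hp : 1 < p)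

include hp

lemma mw_empty {X : Sch k} (h : IsEmpty X.left) : T.MW X := fun w n =>
  WD.mw_zero hp (T.empty n w X h)

lemma mw_point : T.MW (aff k k) := by
  intro w n
  by_cases h : n ≠ 0 ∨ w ≠ 0
  · exact WD.mw_zero hp (T.point.1 n w h)
  · push Not at h
    obtain ⟨rfl, rfl⟩ := h
    exact WD.mw_trivial hp T.point.2

lemma total_w (w : ℤ) {Z X U : Sch k} (i : Z ⟶ X) (j : U ⟶ X) (h : FT True X) (ht : IsTriple i j)
    (hZ : T.MWw w Z) (hU : T.MWw w U) : T.MWw w X := fun n => by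
  obtain ⟨a, b, d, h1, h2, h3⟩ := T.sequence w i j h ht
  obtain ⟨m, rfl⟩ : ∃ m, n = m + 1 := ⟨n - 1, by ring⟩
  exact WD.mw_five hp (d m) (a (m + 1)) (b (m + 1)) (d (m + 1)) (h3 m) (h1 (m + 1)) (h2 (m + 1))
    (hZ _) (hU _) (hZ _) (hU _)

lemma opened_w (w : ℤ) {Z X U : Sch k} (i : Z ⟶ X) (j : U ⟶ X) (h : FT True X) (ht : IsTriple i j)
    (hZ : T.MWw w Z) (hX : T.MWw w X) : T.MWw w U := fun n => by
  obtain ⟨a, b, d, h1, h2, h3⟩ := T.sequence w i j h ht
  obtain ⟨m, rfl⟩ : ∃ m, n = m + 1 := ⟨n - 1, by ring⟩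
  exact WD.mw_five hp (b m) (d m) (a (m + 1)) (b (m + 1)) (h2 m) (h3 m) (h1 (m + 1))
    (hX _) (hZ _) (hX _) (hZ _)

lemma closed_w (w : ℤ) {Z X U : Sch k} (i : Z ⟶ X) (j : U ⟶ X) (h : FT True X) (ht : IsTriple i j)
    (hX : T.MWw w X) (hU : T.MWw w U) : T.MWw w Z := fun n => by
  obtain ⟨a, b, d, h1, h2, h3⟩ := T.sequence w i j h ht
  exact WD.mw_five hp (a n) (b n) (d n) (a (n + 1)) (h1 n) (h2 n) (h3 n)
    (hU _) (hX _) (hU _) (hX _)

/-- closure properties in a fixed weight -/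
theorem dev_w (w : ℤ) : Dev True (T.MWw w) where
  iso h e hX n := (WD.mw_iso hp (T.iso n w _ _ h e)).1 (hX n)
  total i o h ht hZ hU := total_w T hp w i o h ht hZ hU
  opened i o h ht hZ hX := opened_w T hp w i o h ht hZ hX
  empty X h n := mw_empty T hp h w n

theorem clo_w (w : ℤ) : Pool.Agent.Q282.UK.Clo True (T.MWw w) where
  iso := (dev_w T hp w).iso
  total := (dev_w T hp w).total
  opened := (dev_w T hp w).opened
  torus A _ _ _ h n := WD.mw_factor hp (T.torus n w A) (h _)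

theorem dev : Dev True T.MW where
  iso h e hX w := (dev_w T hp w).iso h e (hX w)
  total i o h ht hZ hU w := (dev_w T hp w).total i o h ht (hZ w) (hU w)
  opened i o h ht hZ hX w := (dev_w T hp w).opened i o h ht (hZ w) (hX w)
  empty _ h := mw_empty T hp h

/-- closure properties for all weights -/
theorem bnd : Bnd True T.MW where
  iso h e hX w := (dev_w T hp w).iso h e (hX w)
  total i o h ht hZ hU w := (dev_w T hp w).total i o h ht (hZ w) (hU w)
  opened i o h ht hZ hX w := (dev_w T hp w).opened i o h ht (hZ w) (hX w)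
  closed i o h ht hX hU w := closed_w T hp w i o h ht (hX w) (hU w)
  space m w' n' := by
    obtain ⟨n, rfl⟩ : ∃ n, n' = n + 2 * m := ⟨n' - 2 * m, by ring⟩
    obtain ⟨w, rfl⟩ : ∃ w, w' = w + 2 * m := ⟨w' - 2 * m, by ring⟩
    have h1 := T.bundle n w k m (f1 k m) (aff k k) (𝟙 _) ⟨inferInstance, range_id m⟩
    have h2 := (WD.mw_twist hp m h1).1 (mw_point T hp w n)
    exact (WD.mw_iso hp (T.iso _ _ _ _ (ft_aff True) ⟨(affIso (jouOne k m)).symm⟩)).1 h2
  jouanolou A _ _ _ m f U o hj hr h w n := by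
    cases m with
    | zero =>
      refine mw_empty T hp ⟨fun x => ?_⟩ w n
      have h1 : o.left x ∈ Set.range o.left := ⟨x, rfl⟩
      rw [hr] at h1
      obtain ⟨l, -⟩ := h1
      exact l.elim0
    | succ m => exact (WD.mw_twist hp m (T.bundle n w A m f U o ⟨hj, hr⟩)).2 (h _ _)
  torus A _ _ _ h w n := WD.mw_factor hp (T.torus n w A) (h _ _)
  bundle A _ _ _ m f U o hj hr h w' n' := by
    cases m with
    | zero =>
      have h0 : Subsingleton (Jou f) := by
        refine Ideal.Quotient.subsingleton_iff.mpr ?_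
        rw [Ideal.eq_top_iff_one, Ideal.mem_span_singleton]
        exact ⟨-1, by simp⟩
      exact mw_empty T hp (X := aff k (Jou f)) (inferInstance : IsEmpty (PrimeSpectrum (Jou f))) w' n'
    | succ m =>
      obtain ⟨n, rfl⟩ : ∃ n, n' = n + 2 * m := ⟨n' - 2 * m, by ring⟩
      obtain ⟨w, rfl⟩ : ∃ w, w' = w + 2 * m := ⟨w' - 2 * m, by ring⟩
      exact (WD.mw_twist hp m (T.bundle n w A m f U o ⟨hj, hr⟩)).1 (h _ _)

lemma alt_w {C : Sch k → Prop} (hC : IsProjClass T C) (w : ℤ) : Alt (T.MWw w) C where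
  ft := hC.ft
  alteration d A _ _ _ _ hA := by
    obtain ⟨a, Z, Y, V, i, o, ha, ht, hY, h1, h2, h3⟩ := hC.resolution d A hA
    exact ⟨a, Z, Y, V, i, o, ha, ht, hY, h1, h2, fun hV n => WD.mw_factor hp (h3 n w) (hV n)⟩

lemma alt {C : Sch k → Prop} (hC : IsProjClass T C) : Alt T.MW C where
  ft := hC.ft
  alteration d A _ _ _ _ hA := by
    obtain ⟨a, Z, Y, V, i, o, ha, ht, hY, h1, h2, h3⟩ := hC.resolution d A hA
    exact ⟨a, Z, Y, V, i, o, ha, ht, hY, h1, h2, fun hV w n => WD.mw_factor hp (h3 n w) (hV w n)⟩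

lemma q1_iff {C : Sch k → Prop} (hC : IsProjClass T C) {X : Sch k} (hX : C X) (w : ℤ) :
    T.Q1 w X ↔ T.MWw w X := by
  refine ⟨fun h n => ?_, fun h => h w⟩
  by_cases hn : n = w
  · subst hn
    exact h
  · exact WD.mw_zero hp (hC.pure X hX n w hn)

/-- In a single weight: from smooth projective to all schemes. -/
theorem weight_iff {C : Sch k → Prop} (hC : IsProjClass T C) (w : ℤ) :
    (∀ X, C X → T.Q1 w X) ↔ ∀ X, FT True X → T.MWw w X :=
  ⟨fun h X hX => of_class (dev_w T hp w) (alt_w T hp hC w)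
    (fun X hX => (q1_iff T hp hC hX w).1 (h X hX)) X hX,
    fun h X hX => h X (hC.ft X hX) w⟩

/-- In a single dimension: from smooth projective to all schemes. -/
theorem class_dim_iff {C : Sch k → Prop} (hC : IsProjClass T C) (d : ℕ) :
    (∀ X, C X → topologicalKrullDim X.left ≤ d → ∀ m, T.Q1 m X) ↔
      ∀ X, FT True X → topologicalKrullDim X.left ≤ d → T.MW X :=
  ⟨fun h X hX hd => of_class_dim (dev T hp) (alt T hp hC) d
    (fun X hX hd w => (q1_iff T hp hC hX w).1 (h X hX hd w)) X hX hd,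
    fun h X hX hd m => h X (hC.ft X hX) hd m m⟩

/-- schemes of dimension zero -/
lemma points_mw {C : Sch k → Prop} (hC : IsProjClass T C) (X : Sch k) (hX : FT True X)
    (hd : topologicalKrullDim X.left ≤ (0 : ℕ)) : T.MW X :=
  (class_dim_iff T hp hC 0).1 (fun X hX hd => hC.points X hX (by exact_mod_cast hd)) X hX hd

theorem pos {C : Sch k → Prop} (hC : IsProjClass T C) : Pos True T.MW :=
  pos_of_bnd (bnd T hp) fun A _ _ _ =>
    points_mw T hp hC _ (ft_aff True) (by exact_mod_cast dim_finite A)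

/-- **The number of terms in a fixed weight.** -/
theorem terms_iff {C : Sch k → Prop} (hC : IsProjClass T C) {S : Set k} (hS : Subfield.closure S = ⊤)
    (w : ℤ) (t : ℕ) : List.TFAE [ForEquations t (T.MWw w), ForSystems S t (T.MWw w),
      t ≤ 2 ∨ ∀ X, C X → T.Q1 w X] := by
  rw [weight_iff T hp hC w]
  have hE : t ≤ 2 → ForEquations t (T.MWw w) := fun ht n G hG =>
    two_equations (pos T hp hC) n G (fun f hf => (hG f hf).trans ht) w
  have hB : t ≤ 2 → ForSystems S t (T.MWw w) := fun ht a b c f hf =>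
    two_systems (pos T hp hC) S a b c f (fun l => ⟨(hf l).1, (hf l).2.mono ht⟩) w
  tfae_have 1 → 3 := by
    intro h
    by_cases ht : t ≤ 2
    · exact Or.inl ht
    · refine Or.inr fun X hX => ?_
      refine of_affine' (clo_w T hp w).iso (clo_w T hp w).total (fun A _ _ _ => ?_) X hX
      obtain ⟨n, φ, G, hs, hK, hc⟩ := presentsQ hS A
      have h1 := h n (G : Set (MvPolynomial (Fin n) k))
        fun f hf => (hc f hf).1.trans (by omega)
      rw [← hK] at h1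
      exact Pool.Agent.Q282.UK.clo_alg (clo_w T hp w) (Ideal.quotientKerAlgEquivOfSurjective hs) h1
  tfae_have 3 → 1 := by
    rintro (ht | h)
    · exact hE ht
    · intro n G _
      exact h _ (ft_aff True)
  tfae_have 2 → 3 := by
    intro h
    by_cases ht : t ≤ 2
    · exact Or.inl ht
    · exact Or.inr ((Pool.Agent.U738.BN.sys_iff hS (clo_w T hp w)).mpr fun a b c f hf =>
        h a b c f fun l => ⟨(hf l).1, (hf l).2.mono (by omega)⟩)
  tfae_have 3 → 2 := by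
    rintro (ht | h)
    · exact hB ht
    · intro a b c f _
      exact h _ (ft_aff True)
  tfae_finish

end

end Pool.Agent.U213.WM
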