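import Mathlib

/-!
# Weil numbers and representations of the Weil group with a monodromy operator: definitions
-/

set_option autoImplicit false

open Module Polynomial

namespace Pool.Agent.U213.WM

universe u v

/-- The element `μ` of a field of characteristic zero is a Weil number of weight `w` with respect to the
positive real number `c`: it is algebraic over `ℚ`, and all its complex conjugates have absolute value
`c ^ (w / 2)`. -/
def IsWeil {L : Type*} [Field L] [CharZero L] (c : ℝ) (w : ℤ) (μ : L) : Prop :=
  IsAlgebraic ℚ μ ∧ ∀ z : ℂ, aeval z (minpoly ℚ μ) = 0 → ‖z‖ = c ^ ((w : ℝ) / 2)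

/-- The polynomial `P` over `E` is not zero, and all its roots in the algebraic closure are Weil numbers
whose weight is in the set `J`. -/
def HasWeights {E : Type u} [Field E] [CharZero E] (c : ℝ) (J : Set ℤ) (P : E[X]) : Prop :=
  P ≠ 0 ∧ ∀ μ : AlgebraicClosure E, aeval μ P = 0 → ∃ j ∈ J, IsWeil c j μ

/-- A finite-dimensional space `V` over the field `E` of characteristic zero with an action of the group `W`
(the Weil group of a local field of residue characteristic `p`; an element `g` of degree `ν g` acts on the
residue field like `x ↦ x ^ (p ^ (-ν g))`), and a nilpotent operator `N` (the monodromy operator) with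
`N g = p ^ (ν g) g N`. -/
structure WD (E : Type u) [Field E] [CharZero E] (p : ℕ) (W : Type) [Group W] (ν : W → ℤ) where
  /-- the space -/
  V : Type v
  [grp : AddCommGroup V]
  [mod : Module E V]
  finite : Module.Finite E V
  /-- the action of the Weil group -/
  ρ : W →* Module.End E V
  /-- the monodromy operator -/
  N : Module.End E V
  nilpotent : IsNilpotent N
  comm : ∀ g x, N (ρ g x) = (p : E) ^ ν g • ρ g (N x)

attribute [instance] WD.grp WD.mod

/-- `M` is the monodromy filtration of the operator `N` on `V`. -/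
structure IsMonodromy {E : Type u} [Field E] {V : Type v} [AddCommGroup V] [Module E V]
    (N : Module.End E V) (M : ℤ → Submodule E V) : Prop where
  mono : Monotone M
  separated : ∃ a, M a = ⊥
  exhaustive : ∃ b, M b = ⊤
  lower : ∀ s, ∀ x ∈ M s, N x ∈ M (s - 2)
  /-- `N ^ s` is injective from `gr_s` to `gr_(-s)` -/
  inj : ∀ s : ℕ, ∀ x ∈ M s, (N ^ s) x ∈ M (-s - 1) → x ∈ M (s - 1)
  /-- `N ^ s` is surjective from `gr_s` to `gr_(-s)` -/
  surj : ∀ s : ℕ, ∀ y ∈ M (-s), ∃ x ∈ M s, (N ^ s) x - y ∈ M (-s - 1)

namespace WD

variable {E : Type u} [Field E] [CharZero E] {p : ℕ} {W : Type} [Group W] {ν : W → ℤ}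

/-- The assertion of the monodromy-weight conjecture for a space of weight `m`, for the element `g`: with
the monodromy filtration `M` of `N`, which is stable under `g`, the eigenvalues of `g` on
`gr_s = M s / M (s - 1)` are Weil numbers whose complex conjugates have absolute value
`p ^ ((m + s) ν(g) / 2)`: every element of `gr_s` is killed by a polynomial in `g` with such roots. -/
def PureAt (A : WD.{u, v} E p W ν) (m : ℤ) (g : W) : Prop :=
  ∃ M : ℤ → Submodule E A.V, IsMonodromy A.N M ∧ (∀ s, ∀ x ∈ M s, A.ρ g x ∈ M s) ∧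
    ∀ s, ∀ x ∈ M s, ∃ P : E[X], HasWeights ((p : ℝ) ^ ν g) {m + s} P ∧
      aeval (A.ρ g) P x ∈ M (s - 1)

/-- The monodromy-weight assertion for a space of weight `m`, for all elements `g` of the Weil group of
degree different from zero (on the inertia group the eigenvalues are roots of unity). -/
def MW (A : WD.{u, v} E p W ν) (m : ℤ) : Prop := ∀ g, ν g ≠ 0 → A.PureAt m g

/-- Linear maps which commute with the Weil group and with the monodromy operators. -/
structure Hom (A B : WD.{u, v} E p W ν) where
  /-- the linear map -/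
  f : A.V →ₗ[E] B.V
  ρ : ∀ g x, f (A.ρ g x) = B.ρ g (f x)
  N : ∀ x, f (A.N x) = B.N (f x)

/-- `A` and `B` are isomorphic. -/
def IsIso (A B : WD.{u, v} E p W ν) : Prop := ∃ f : Hom A B, Function.Bijective f.f

/-- `A` is a direct factor of `B`. -/
def IsFactor (A B : WD.{u, v} E p W ν) : Prop :=
  ∃ (s : Hom A B) (r : Hom B A), ∀ x, r.f (s.f x) = x

/-- `B` is the Tate twist `A(-j)`: the action of `g` is multiplied by `p ^ (j ν(g))`. -/
def IsTwist (j : ℤ) (A B : WD.{u, v} E p W ν) : Prop :=
  ∃ f : A.V →ₗ[E] B.V, Function.Bijective f ∧ (∀ x, f (A.N x) = B.N (f x)) ∧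
    ∀ g x, f (((p : E) ^ (j * ν g)) • A.ρ g x) = B.ρ g (f x)

end WD

end Pool.Agent.U213.WM
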