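import Pool.Agent.U213.WM.Rep

/-!
# Weil numbers and generalized weight spaces of an operator
-/

set_option autoImplicit false

open Module Polynomial

namespace Pool.Agent.U213.WM

universe u v

section

variable {L : Type*} [Field L] [CharZero L] {c : ℝ} {w w' : ℤ} {μ μ' : L}

lemma IsWeil.unique (hc : 0 < c) (hc1 : c ≠ 1) (h : IsWeil c w μ) (h' : IsWeil c w' μ) : w = w' := by
  have hi : IsIntegral ℚ μ := h.1.isIntegral
  obtain ⟨z, hz⟩ := IsAlgClosed.exists_aeval_eq_zero ℂ (minpoly ℚ μ) (minpoly.degree_pos hi).ne'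
  have h1 := (h.2 z hz).symm.trans (h'.2 z hz)
  have h2 := (Real.rpow_right_inj hc hc1).1 h1
  have h3 : (w : ℝ) = w' := by linarith
  exact_mod_cast h3

/-- `c μ` has the weight of `μ` increased by two, for the rational number `c`. -/
lemma IsWeil.of_mul (a : ℚ) (ha : 0 < a) (h : IsWeil (a : ℝ) w ((a : L) * μ)) :
    IsWeil (a : ℝ) (w - 2) μ := by
  have haL : (a : L) ≠ 0 := by exact_mod_cast ha.ne'
  have haR : (0 : ℝ) < a := by exact_mod_cast ha
  have h1 : IsAlgebraic ℚ μ := by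
    have h2 : μ = ((a⁻¹ : ℚ) : L) * ((a : L) * μ) := by
      push_cast
      rw [← mul_assoc, inv_mul_cancel₀ haL, one_mul]
    rw [h2]
    exact (isAlgebraic_algebraMap (a⁻¹ : ℚ)).mul h.1
  refine ⟨h1, fun z hz => ?_⟩
  -- `a z` is a conjugate of `a μ`
  have h3 : minpoly ℚ μ ∣ (minpoly ℚ ((a : L) * μ)).comp (C a * X) := by
    refine minpoly.dvd ℚ μ ?_
    rw [aeval_comp]
    simp only [map_mul, aeval_C, aeval_X]
    exact minpoly.aeval ℚ _
  have h4 : aeval ((a : ℂ) * z) (minpoly ℚ ((a : L) * μ)) = 0 := by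
    obtain ⟨q, hq⟩ := h3
    have h5 : aeval z ((minpoly ℚ ((a : L) * μ)).comp (C a * X)) = 0 := by
      rw [hq, map_mul, hz, zero_mul]
    rw [aeval_comp] at h5
    simp only [map_mul, aeval_C, aeval_X] at h5
    exact h5
  have h6 := h.2 _ h4
  rw [norm_mul] at h6
  have h7 : ‖(a : ℂ)‖ = a := by
    rw [Complex.norm_ratCast]
    exact abs_of_pos haR
  rw [h7] at h6
  have h8 : ((w - 2 : ℤ) : ℝ) / 2 = (w : ℝ) / 2 - 1 := by push_cast; ring
  rw [h8, Real.rpow_sub_one haR.ne', ← h6]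
  field_simp

lemma IsWeil.mul (a : ℚ) (ha : 0 < a) (h : IsWeil (a : ℝ) w μ) :
    IsWeil (a : ℝ) (w + 2) ((a : L) * μ) := by
  have haL : (a : L) ≠ 0 := by exact_mod_cast ha.ne'
  have haR : (0 : ℝ) < a := by exact_mod_cast ha
  refine ⟨(isAlgebraic_algebraMap (a : ℚ)).mul h.1, fun z hz => ?_⟩
  have h3 : minpoly ℚ ((a : L) * μ) ∣ (minpoly ℚ μ).comp (C a⁻¹ * X) := by
    refine minpoly.dvd ℚ _ ?_
    rw [aeval_comp]
    simp only [map_mul, aeval_C, aeval_X]
    have h9 : (algebraMap ℚ L) a⁻¹ * ((a : L) * μ) = μ := by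
      rw [eq_ratCast]
      push_cast
      rw [← mul_assoc, inv_mul_cancel₀ haL, one_mul]
    rw [h9]
    exact minpoly.aeval ℚ _
  have h4 : aeval ((a : ℂ)⁻¹ * z) (minpoly ℚ μ) = 0 := by
    obtain ⟨q, hq⟩ := h3
    have h5 : aeval z ((minpoly ℚ μ).comp (C a⁻¹ * X)) = 0 := by
      rw [hq, map_mul, hz, zero_mul]
    rw [aeval_comp] at h5
    simp only [map_mul, aeval_C, aeval_X, eq_ratCast] at h5
    push_cast at h5
    exact h5
  have h6 := h.2 _ h4
  rw [norm_mul, norm_inv] at h6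
  have h7 : ‖(a : ℂ)‖ = a := by
    rw [Complex.norm_ratCast]
    exact abs_of_pos haR
  rw [h7] at h6
  have h8 : ((w + 2 : ℤ) : ℝ) / 2 = (w : ℝ) / 2 + 1 := by push_cast; ring
  rw [h8, Real.rpow_add_one haR.ne', ← h6]
  field_simp

end

section

variable {E : Type u} [Field E] [CharZero E]

variable {c : ℝ} {J J' : Set ℤ} {P Q : E[X]}

lemma hasWeights_one : HasWeights c J (1 : E[X]) :=
  ⟨one_ne_zero, fun μ h => absurd h (by simp)⟩

lemma HasWeights.mul (hP : HasWeights c J P) (hQ : HasWeights c J Q) : HasWeights c J (P * Q) :=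
  ⟨mul_ne_zero hP.1 hQ.1, fun μ h => by
    rw [map_mul, mul_eq_zero] at h
    exact h.elim (hP.2 μ) (hQ.2 μ)⟩

lemma HasWeights.mono (hJ : J ⊆ J') (hP : HasWeights c J P) : HasWeights c J' P :=
  ⟨hP.1, fun μ h => by
    obtain ⟨j, hj, h⟩ := hP.2 μ h
    exact ⟨j, hJ hj, h⟩⟩

lemma coprime (hc : 0 < c) (hc1 : c ≠ 1) (hJ : Disjoint J J') (hP : HasWeights c J P)
    (hQ : HasWeights c J' Q) : IsCoprime P Q := by
  rw [Polynomial.isCoprime_iff_aeval_ne_zero_of_isAlgClosed E (AlgebraicClosure E)]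
  intro μ
  by_contra hcon
  push Not at hcon
  obtain ⟨j, hj, h1⟩ := hP.2 μ hcon.1
  obtain ⟨j', hj', h2⟩ := hQ.2 μ hcon.2
  have h3 := h1.unique hc hc1 h2
  subst h3
  exact Set.disjoint_left.1 hJ hj hj'

/-- Conjugate elements have the same weight. -/
lemma weil_conj {w : ℤ} {μ μ' : AlgebraicClosure E} {q : E[X]} (hq : Irreducible q)
    (h : aeval μ q = 0) (h' : aeval μ' q = 0) (hw : IsWeil c w μ) : IsWeil c w μ' := by
  have h1 : q ∣ minpoly E μ := by
    have h2 := minpoly.dvd E μ h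
    exact (hq.dvd_comm (minpoly.irreducible (Algebra.IsAlgebraic.isAlgebraic μ).isIntegral)).2 h2
  have h3 : aeval μ' (minpoly ℚ μ) = 0 := by
    have h4 : minpoly E μ ∣ (minpoly ℚ μ).map (algebraMap ℚ E) := minpoly.dvd_map_of_isScalarTower ℚ E μ
    obtain ⟨r, hr⟩ := h1.trans h4
    have h5 : aeval μ' ((minpoly ℚ μ).map (algebraMap ℚ E)) = 0 := by
      rw [hr, map_mul, h', zero_mul]
    rwa [aeval_map_algebraMap] at h5
  have h6 : minpoly ℚ μ = minpoly ℚ μ' :=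
    minpoly.eq_of_irreducible_of_monic (minpoly.irreducible hw.1.isIntegral) h3
      (minpoly.monic hw.1.isIntegral)
  refine ⟨⟨minpoly ℚ μ, minpoly.ne_zero hw.1.isIntegral, h3⟩, fun z hz => hw.2 z ?_⟩
  rwa [h6]

/-- Factorization of a polynomial according to the weights of its roots. -/
lemma split (hP : HasWeights c (J ∪ J') P) :
    ∃ A B : E[X], P = A * B ∧ HasWeights c J A ∧ HasWeights c J' B := by
  obtain ⟨h0, h⟩ := hP
  induction P using WfDvdMonoid.induction_on_irreducible with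
  | zero => exact absurd rfl h0
  | unit u hu =>
    refine ⟨u, 1, (mul_one u).symm, ⟨hu.ne_zero, fun μ hμ => ?_⟩, hasWeights_one⟩
    exact absurd hμ (hu.map (aeval μ)).ne_zero
  | mul P q hP0 hq ih =>
    obtain ⟨A, B, rfl, hA, hB⟩ := ih hP0 fun μ hμ => h μ (by rw [map_mul, hμ, mul_zero])
    have hdeg : q.degree ≠ 0 := by
      intro hd
      exact hq.not_isUnit (Polynomial.isUnit_iff_degree_eq_zero.2 hd)
    obtain ⟨μ, hμ⟩ := IsAlgClosed.exists_aeval_eq_zero (AlgebraicClosure E) q hdeg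
    obtain ⟨j, hj, hw⟩ := h μ (by rw [map_mul, hμ, zero_mul])
    have hall : ∀ μ' : AlgebraicClosure E, aeval μ' q = 0 → IsWeil c j μ' := fun μ' h' =>
      weil_conj hq hμ h' hw
    rcases hj with hj | hj
    · exact ⟨q * A, B, by ring, HasWeights.mul ⟨hq.ne_zero, fun μ' h' => ⟨j, hj, hall μ' h'⟩⟩ hA, hB⟩
    · exact ⟨A, q * B, by ring, hA, HasWeights.mul ⟨hq.ne_zero, fun μ' h' => ⟨j, hj, hall μ' h'⟩⟩ hB⟩

/-- The weights of the roots of a polynomial are bounded. -/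
lemma bounded (hP : HasWeights c Set.univ P) : ∃ a b : ℤ, HasWeights c (Set.Icc a b) P := by
  classical
  obtain ⟨h0, h⟩ := hP
  have h1 : ∀ μ : AlgebraicClosure E, ∃ j : ℤ, aeval μ P = 0 → IsWeil c j μ := by
    intro μ
    by_cases hμ : aeval μ P = 0
    · obtain ⟨j, -, hj⟩ := h μ hμ
      exact ⟨j, fun _ => hj⟩
    · exact ⟨0, fun h' => absurd h' hμ⟩
  choose f hf using h1
  let S : Finset ℤ := (P.rootSet_finite (AlgebraicClosure E)).toFinset.image f
  obtain ⟨a, ha⟩ := S.bddBelow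
  obtain ⟨b, hb⟩ := S.bddAbove
  refine ⟨a, b, h0, fun μ hμ => ⟨f μ, ?_, hf μ hμ⟩⟩
  have h2 : f μ ∈ (S : Set ℤ) := by
    rw [Finset.mem_coe, Finset.mem_image]
    exact ⟨μ, by rw [Set.Finite.mem_toFinset, mem_rootSet]; exact ⟨h0, hμ⟩, rfl⟩
  exact ⟨ha h2, hb h2⟩

/-- scaling the roots -/
lemma HasWeights.comp (a : ℚ) (ha : 0 < a) (hP : HasWeights (a : ℝ) J P) :
    HasWeights (a : ℝ) {j | j + 2 ∈ J} (P.comp (C (a : E) * X)) := by
  have haE : (a : E) ≠ 0 := by exact_mod_cast ha.ne'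
  refine ⟨?_, fun μ hμ => ?_⟩
  · intro h
    have h1 : (P.comp (C (a : E) * X)).comp (C (a : E)⁻¹ * X) = P := by
      rw [comp_assoc]
      have h2 : (C (a : E) * X : E[X]).comp (C (a : E)⁻¹ * X) = X := by
        rw [mul_comp, C_comp, X_comp, ← mul_assoc, ← C_mul, mul_inv_cancel₀ haE, C_1, one_mul]
      rw [h2, comp_X]
    rw [h, zero_comp] at h1
    exact hP.1 h1.symm
  · rw [aeval_comp] at hμ
    simp only [map_mul, aeval_C, aeval_X] at hμ
    have h3 : (algebraMap E (AlgebraicClosure E)) (a : E) = (a : AlgebraicClosure E) := map_ratCast _ a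
    rw [h3] at hμ
    obtain ⟨j, hj, hw⟩ := hP.2 _ hμ
    exact ⟨j - 2, by simpa using hj, hw.of_mul a ha⟩

lemma HasWeights.comp_inv (a : ℚ) (ha : 0 < a) (hP : HasWeights (a : ℝ) J P) :
    HasWeights (a : ℝ) {j | j - 2 ∈ J} (P.comp (C (a : E)⁻¹ * X)) := by
  have haE : (a : E) ≠ 0 := by exact_mod_cast ha.ne'
  refine ⟨?_, fun μ hμ => ?_⟩
  · intro h
    have h1 : (P.comp (C (a : E)⁻¹ * X)).comp (C (a : E) * X) = P := by
      rw [comp_assoc]
      have h2 : (C (a : E)⁻¹ * X : E[X]).comp (C (a : E) * X) = X := by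
        rw [mul_comp, C_comp, X_comp, ← mul_assoc, ← C_mul, inv_mul_cancel₀ haE, C_1, one_mul]
      rw [h2, comp_X]
    rw [h, zero_comp] at h1
    exact hP.1 h1.symm
  · rw [aeval_comp] at hμ
    simp only [map_mul, aeval_C, aeval_X, map_inv₀] at hμ
    have h3 : (algebraMap E (AlgebraicClosure E)) (a : E) = (a : AlgebraicClosure E) := map_ratCast _ a
    rw [h3] at hμ
    obtain ⟨j, hj, hw⟩ := hP.2 _ hμ
    have haL : (a : AlgebraicClosure E) ≠ 0 := by exact_mod_cast ha.ne'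
    refine ⟨j + 2, by simpa using hj, ?_⟩
    have h4 := hw.mul a ha
    rwa [← mul_assoc, mul_inv_cancel₀ haL, one_mul] at h4

end

end Pool.Agent.U213.WM
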